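import Mathlib
import Pool.Agent.N741.FD.Main

/-!
# The Fermat-Catalan equation with bases that have few small digits in a common large base

There is a constant `κ` such that only finitely many value triples `(x ^ p, y ^ q, z ^ r)` of solutions of the
Fermat-Catalan equation (all exponents free, `1/p + 1/q + 1/r ≤ 1`) have bases `x = F(w)`, `y = G(w)`,
`z = H(w)` given by integer polynomials `F`, `G`, `H`, not all constant, of degree at most `D`, with
coefficients of absolute value at most `B` and leading coefficients whose `p`-th, `q`-th, `r`-th powers have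
absolute value at most `A`, where `A (B (D log w + 2) ^ κ) ^ (6 D - 2) ≤ w`.

Nothing is fixed here: `w`, `D`, `A`, `B`, the polynomials and the exponents all vary. For fixed `D` the
digits (the coefficients) may be as large as `w ^ δ` and the leading powers as large as `w ^ δ'` for any
`δ`, `δ'` with `(6 D - 2) δ + δ' < 1`. For digits that are bounded by a power of `log w` the number of digits
may grow as a constant times `log w / log log w`.

Proof. Linear forms in two logarithms (starting library) bound the exponents, apart from those of a base `1`,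
by `C (D log w) ^ κ`; a base `1` comes from a constant polynomial and its exponent may be changed. Put
`P = F ^ p + G ^ q - H ^ r`, which is not zero by the Fermat-Catalan theorem for polynomials, and let `M` be
the largest of the degrees of the three powers. The coefficient of `P` at `X ^ (M - i)` is at most `3 A E ^ i`
with `E = D B max (p, q, r)`. As `P(w) = 0` and `w > 6 A E ^ (6 D - 2)`, the degree of `P` is at most
`M - (6 D - 2)`. A Wronskian argument for the four polynomials `F ^ p`, `G ^ q`, `H ^ r`, `P` (two steps,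
with pairwise coprime `F`, `G`, `H`) shows on the other hand that the degree of `P` is at least
`M - (6 D - 3)`.
-/

set_option autoImplicit false

namespace Pool.Agent.Results.MP_2738db_nt.FewDigits

open Polynomial

/-- `F` has degree at most `D` and coefficients of absolute value at most `B`, and the `p`-th power of
its leading coefficient has absolute value at most `A` -/
def Few (F : ℤ[X]) (D B p A : ℕ) : Prop :=
  F.natDegree ≤ D ∧ (∀ j, (F.coeff j).natAbs ≤ B) ∧ F.leadingCoeff.natAbs ^ p ≤ A

/-- the value triples `(x ^ p, y ^ q, z ^ r)` of the solutions of `x ^ p + y ^ q = z ^ r` in coprime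
positive integers and positive exponents with `1/p + 1/q + 1/r ≤ 1` whose bases are values `F(w)`, `G(w)`,
`H(w)` of integer polynomials, not all constant, which are `Few` with parameters such that
`A (B (D log w + 2) ^ κ) ^ (6 D - 2) ≤ w` -/
def Values (κ : ℕ) : Set (ℕ × ℕ × ℕ) :=
  {v | ∃ (x y z p q r w A B D : ℕ) (F G H : ℤ[X]), 0 < x ∧ 0 < y ∧ 0 < z ∧ Nat.Coprime x y ∧
    0 < p ∧ 0 < q ∧ 0 < r ∧ (1 : ℚ) / p + 1 / q + 1 / r ≤ 1 ∧
    x ^ p + y ^ q = z ^ r ∧ v = (x ^ p, y ^ q, z ^ r) ∧
    (0 < F.natDegree ∨ 0 < G.natDegree ∨ 0 < H.natDegree) ∧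
    Few F D B p A ∧ Few G D B q A ∧ Few H D B r A ∧
    F.eval (w : ℤ) = x ∧ G.eval (w : ℤ) = y ∧ H.eval (w : ℤ) = z ∧
    (A : ℝ) * (B * (D * Real.log w + 2) ^ κ) ^ (6 * D - 2) ≤ w}

theorem ineq_of {l m k : ℕ} (hl : 0 < l) (hm : 0 < m) (hk : 0 < k)
    (h : (1 : ℚ) / l + 1 / m + 1 / k ≤ 1) : m * k + k * l + l * m ≤ l * m * k := by
  have hl' : (0 : ℚ) < l := by exact_mod_cast hl
  have hm' : (0 : ℚ) < m := by exact_mod_cast hm
  have hk' : (0 : ℚ) < k := by exact_mod_cast hk
  have h1 : ((m * k + k * l + l * m : ℕ) : ℚ) ≤ ((l * m * k : ℕ) : ℚ) := by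
    push_cast
    have h2 := mul_le_mul_of_nonneg_right h (by positivity : (0 : ℚ) ≤ l * m * k)
    have h3 : ((1 : ℚ) / l + 1 / m + 1 / k) * (l * m * k) = m * k + k * l + l * m := by
      field_simp
    linarith
  exact_mod_cast h1

theorem result : ∃ κ : ℕ, (Values κ).Finite := by
  obtain ⟨κ, h⟩ := Pool.Agent.N741.FD.few_digits
  refine ⟨κ, h.subset ?_⟩
  rintro v ⟨x, y, z, p, q, r, w, A, B, D, F, G, H, hx, hy, hz, hxy, hp, hq, hr, hle, heq, hv, hpos,
    hF, hG, hH, e1, e2, e3, hc⟩
  exact ⟨x, y, z, p, q, r, w, A, B, D, F, G, H, hx, hy, hz, hxy, hp, hq, hr, ineq_of hp hq hr hle,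
    heq, hv, hpos, hF, hG, hH, e1, e2, e3, hc⟩

end Pool.Agent.Results.MP_2738db_nt.FewDigits
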