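import Mathlib
import Pool.Agent.N666.VE.FCMain

/-!
# The Fermat-Catalan equation with two bases near the values of two generalised polynomials

Let `P₁`, `P₂` be generalised polynomials `P(t) = ∑ a_x t ^ x` (finitely many real exponents `x`, real
coefficients) with distinct leading exponents which are positive and not integers, and positive
leading coefficients; for example `P₁(t) = t ^ √2`, `P₂(t) = 3 t ^ (5/2) + π t ^ √5 - 7 t`.  Let `U` be
fixed.  There is `κ > 0` such that for one hundred per cent of the integers `n` NO pair of coprime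
integers `x`, `y` with `|x - P₁(n)| ≤ U`, `|y - P₂(n)| ≤ U` are two of the bases of a solution

`x ^ p + y ^ q = z ^ r`, `x ^ p + z ^ r = y ^ q` or `y ^ q + z ^ r = x ^ p`

with a third base `z ≤ exp (n ^ κ)`.  All exponents `p, q, r ≥ 2` are free, except that `r ≥ 3` if `p`
and `q` are both even.  (The bases `x`, `y` have size `n ^ c`; the terms may be as large as
`exp (exp (n ^ κ))`.)

Proof.  The vectors of the integer parts of `P₁(n)`, `P₂(n)` are equidistributed modulo all `m ≤ n ^ δ`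
with a power saving (exponential sums `Pool.Agent.Y961.JR` of the starting library, discrepancy).
With moduli up to `n ^ δ` this gives that each pair of bases occurs for few `n`, so that the theorem
on lopsided pairs of helper741 (with helpers 141, 157, 525, 767; `MP_509488_nt.LopsidedPairs`) settles
all large exponents `r`; with fixed moduli it transports the residue sieve for pairs of bases
(`Pool.Agent.H374R2`, Beal's equation with one given exponent), which settles the other `r`.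
-/

set_option autoImplicit false

namespace Pool.Agent.Results.MP_2738db_nt.GeneralisedPolynomialBases

/-- The generalised polynomial `∑ a_x t ^ x`. -/
noncomputable def P (F : Finset ℝ) (a : ℝ → ℝ) (t : ℝ) : ℝ := ∑ x ∈ F, a x * t ^ x

/-- `c` is the largest exponent; it is positive and not an integer and has a positive coefficient. -/
def Admissible (F : Finset ℝ) (a : ℝ → ℝ) (c : ℝ) : Prop :=
  c ∈ F ∧ (∀ x ∈ F, x ≤ c) ∧ 0 < c ∧ (∀ m : ℕ, c ≠ m) ∧ 0 < a c

/-- `x` and `y` are coprime and two of the three bases of a solution with a third base at most `W`. -/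
def TwoBases (W : ℝ) (x y : ℕ) : Prop := ∃ z p q r : ℕ, 1 ≤ x ∧ 1 ≤ y ∧ Nat.Coprime x y ∧ 1 ≤ z ∧
  (z : ℝ) ≤ W ∧ 2 ≤ p ∧ 2 ≤ q ∧ 2 ≤ r ∧ (3 ≤ r ∨ ¬ 2 ∣ p ∨ ¬ 2 ∣ q) ∧
  (x ^ p + y ^ q = z ^ r ∨ x ^ p + z ^ r = y ^ q ∨ y ^ q + z ^ r = x ^ p)

/-- For large `N` at most `ε N` of the integers `n` in `(N, 2 N]` are such that there are two bases
within `U` of `P₁(n)` and `P₂(n)` with a third base at most `exp (n ^ κ)`. -/
theorem result (F₁ F₂ : Finset ℝ) (a₁ a₂ : ℝ → ℝ) (c₁ c₂ : ℝ) (h₁ : Admissible F₁ a₁ c₁)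
    (h₂ : Admissible F₂ a₂ c₂) (hne : c₁ ≠ c₂) (U : ℕ) :
    ∃ κ : ℝ, 0 < κ ∧ ∀ ε : ℝ, 0 < ε → ∃ N₀ : ℕ, ∀ N : ℕ, N₀ ≤ N →
      ({n : ℕ | N < n ∧ n ≤ 2 * N ∧ ∃ x y : ℕ, |(x : ℝ) - P F₁ a₁ n| ≤ U ∧
        |(y : ℝ) - P F₂ a₂ n| ≤ U ∧ TwoBases (Real.exp ((n : ℝ) ^ κ)) x y}.ncard : ℝ) ≤ ε * N := by
  have H : Pool.Agent.Y961.JR.Fam ![F₁, F₂] ![a₁, a₂] ![c₁, c₂] := by
    refine ⟨?_, ?_, ?_, ?_, ?_, ?_⟩
    · intro j; fin_cases j <;> [exact h₁.1; exact h₂.1]
    · intro j; fin_cases j <;> [exact h₁.2.1; exact h₂.2.1]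
    · intro j; fin_cases j <;> [exact h₁.2.2.2.2; exact h₂.2.2.2.2]
    · intro j; fin_cases j <;> [exact h₁.2.2.1; exact h₂.2.2.1]
    · intro j; fin_cases j <;> [exact h₁.2.2.2.1; exact h₂.2.2.2.1]
    · intro i j hij
      fin_cases i <;> fin_cases j <;> simp at hij ⊢
      · exact hne hij
      · exact hne hij.symm
  obtain ⟨κ, hκ, h⟩ := Pool.Agent.N666.VE.fc_ints _ _ _ H U
  refine ⟨κ, hκ, fun ε hε => ?_⟩
  obtain ⟨N₀, hN₀⟩ := h ε hε
  refine ⟨N₀, fun N hN => ?_⟩
  refine le_trans (le_of_eq ?_) (hN₀ N hN)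
  congr 2
  ext n
  simp only [Set.mem_ofPred_eq, Pool.Agent.N666.VE.Near, Pool.Agent.N666.VE.val, and_assoc]
  rfl

end Pool.Agent.Results.MP_2738db_nt.GeneralisedPolynomialBases
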