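import Mathlib
import Pool.Agent.N741.HB.Thm2
import Pool.Agent.Y902.GN.FinB
import Pool.Agent.Y902.FB.Main

/-!
# The Fermat-Catalan equation: two multiplicatively generated bases, a very large third base

For all `P` and `ε > 0` there are `R` and `δ > 0` such that for all large `Y` the equation
`a ^ m + b ^ n = c ^ k`, where the term `c ^ k` may stand in any of the three positions, has at most
`Y ^ ε` solutions in coprime positive integers with exponents `m, n ≥ 2`, `k ≥ R` (which are otherwise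
free) such that `a` and `b` are products of powers of (the same) `P` integers between `1` and `Y`, which
are not given, and the three terms are at most `exp (Y ^ δ)`.

Solutions are counted by the pairs of bases `(a, b)` together with the values of the three terms.
The bases are not bounded by a power of `Y`: all of them may be of exponential size, and there is no
restriction on the prime factors of `c`.

Proof. Terms at least a power of `Y`: the theorem on abc triples with two generated members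
and a third member which is a high power (project HB: Mason's theorem over function fields,
determinant method for large third base, power values of polynomials with coefficients of exponential
size). Smaller terms: all three bases are at most a power of `Y`, and the bound of the
starting library for the number of solutions with bounded bases applies.
-/

set_option autoImplicit false

namespace Pool.Agent.Results.MP_2738db_nt.GeneratedPairs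

/-- `a` and `b` are products of powers of the same `P` integers between `1` and `Y` -/
def Generated (P Y a b : ℕ) : Prop :=
  ∃ y e f : Fin P → ℕ, (∀ j, 1 ≤ y j ∧ y j ≤ Y) ∧ a = ∏ j, y j ^ e j ∧ b = ∏ j, y j ^ f j

/-- The solutions of `a ^ m + b ^ n = c ^ k`, the term `c ^ k` being in any of the three positions,
with coprime `a, b ≥ 1`, `c ≥ 1`, `m, n ≥ 2`, `k ≥ R`, where `a`, `b` are products of powers of `P`
integers between `1` and `Y` and the terms are at most `W`: the pairs of bases `(a, b)` together with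
the values of the three terms. -/
def Sols (P R Y : ℕ) (W : ℝ) : Set (ℕ × ℕ × ℕ × ℕ × ℕ) := {v | ∃ a b c m n k : ℕ, 1 ≤ a ∧ 1 ≤ b ∧
  1 ≤ c ∧ Nat.Coprime a b ∧ 2 ≤ m ∧ 2 ≤ n ∧ R ≤ k ∧
    (a ^ m + b ^ n = c ^ k ∨ a ^ m + c ^ k = b ^ n ∨ b ^ n + c ^ k = a ^ m) ∧
    Generated P Y a b ∧ ((a ^ m : ℕ) : ℝ) ≤ W ∧ ((b ^ n : ℕ) : ℝ) ≤ W ∧ ((c ^ k : ℕ) : ℝ) ≤ W ∧
    v = (a, b, a ^ m, b ^ n, c ^ k)}

open Pool.Agent.N741.HB

theorem copr {X Y Z : ℕ} (h : X + Y = Z) (h' : Nat.Coprime X Y ∨ Nat.Coprime X Z ∨ Nat.Coprime Y Z) :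
    Nat.Coprime X Y ∧ Nat.Coprime X Z ∧ Nat.Coprime Y Z := by
  subst h
  rw [Nat.coprime_self_add_right, Nat.coprime_add_self_right] at *
  rcases h' with h | h | h
  · exact ⟨h, h, h.symm⟩
  · exact ⟨h, h, h.symm⟩
  · exact ⟨h.symm, h.symm, h⟩

/-- a triple of values of the general kind -/
theorem small {a b c l m n Y R K : ℕ} (ha : 1 ≤ a) (hb : 1 ≤ b) (hc : 1 ≤ c) (hl : 2 ≤ l) (hm : 2 ≤ m)
    (hn : 2 ≤ n) (hR : R ≤ l ∨ R ≤ m ∨ R ≤ n) (h : a ^ l + b ^ m = c ^ n)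
    (hco : Nat.Coprime (a ^ l) (b ^ m) ∨ Nat.Coprime (a ^ l) (c ^ n) ∨ Nat.Coprime (b ^ m) (c ^ n))
    (hY : 1 ≤ Y) (hs : c ^ n < Y ^ K) :
    (a ^ l, b ^ m, c ^ n) ∈ Pool.Agent.Y902.FB.Triples (Y ^ (K + 1)) R := by
  obtain ⟨h1, h2, h3⟩ := copr h hco
  have la : a ≤ a ^ l := Nat.le_self_pow (by omega) _
  have lb : b ≤ b ^ m := Nat.le_self_pow (by omega) _
  have lc : c ≤ c ^ n := Nat.le_self_pow (by omega) _
  have lY : Y ^ K ≤ Y ^ (K + 1) := Nat.pow_le_pow_right hY (by omega)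
  refine ⟨a, b, c, l, m, n, by omega, by omega, by omega, by omega, by omega, by omega, ?_, ?_, ?_,
    hl, hm, hn, hR, h, rfl⟩
  · exact (Nat.Coprime.coprime_dvd_left (dvd_pow_self a (by omega)) h1).coprime_dvd_right
      (dvd_pow_self b (by omega))
  · exact (Nat.Coprime.coprime_dvd_left (dvd_pow_self a (by omega)) h2).coprime_dvd_right
      (dvd_pow_self c (by omega))
  · exact (Nat.Coprime.coprime_dvd_left (dvd_pow_self b (by omega)) h3).coprime_dvd_right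
      (dvd_pow_self c (by omega))

theorem lop {P Y R a b c m n k : ℕ} (hg : Generated P Y a b) (hk : R ≤ k) :
    Lop P 0 R Y (a ^ m) (b ^ n) (c ^ k) := by
  obtain ⟨y, e, f, hy, ha, hb⟩ := hg
  refine ⟨y, fun j => e j * m, fun j => f j * n, 1, 1, 1, c, k, hy, by simp, by simp, by simp, hk, ?_,
    ?_, by rw [one_mul]⟩
  · rw [one_mul, ha, ← Finset.prod_pow]
    exact Finset.prod_congr rfl fun j _ => by rw [pow_mul]
  · rw [one_mul, hb, ← Finset.prod_pow]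
    exact Finset.prod_congr rfl fun j _ => by rw [pow_mul]

/-- the triples of terms in the order of size -/
def Good (P R₁ R₂ Y : ℕ) (δ : ℝ) (t : ℕ × ℕ × ℕ) : Prop :=
  (0 < t.1 ∧ 0 < t.2.1 ∧ Nat.Coprime t.1 t.2.1 ∧ t.1 + t.2.1 = t.2.2 ∧
    (t.2.2 : ℝ) ≤ Real.exp ((Y : ℝ) ^ δ) ∧
    (Lop P 0 R₁ Y t.1 t.2.1 t.2.2 ∨ Lop P 0 R₁ Y t.1 t.2.2 t.2.1 ∨ Lop P 0 R₁ Y t.2.1 t.2.2 t.1)) ∧
  (t.2.2 < Y ^ R₁ → t ∈ Pool.Agent.Y902.FB.Triples (Y ^ (R₁ + 1)) R₂)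

theorem good_card {P R₁ R₂ Y : ℕ} {δ ε : ℝ}
    (H1 : ∀ T : Finset (ℕ × ℕ × ℕ), (∀ t ∈ T, 0 < t.1 ∧ 0 < t.2.1 ∧ Nat.Coprime t.1 t.2.1 ∧
      t.1 + t.2.1 = t.2.2 ∧ Y ^ R₁ ≤ t.2.2 ∧ (t.2.2 : ℝ) ≤ Real.exp ((Y : ℝ) ^ δ) ∧
      (Lop P 0 R₁ Y t.1 t.2.1 t.2.2 ∨ Lop P 0 R₁ Y t.1 t.2.2 t.2.1 ∨ Lop P 0 R₁ Y t.2.1 t.2.2 t.1)) →
      (T.card : ℝ) ≤ (Y : ℝ) ^ ε)
    (H2 : (Pool.Agent.Y902.FB.Triples (Y ^ (R₁ + 1)) R₂).Finite)
    (H3 : ((Pool.Agent.Y902.FB.Triples (Y ^ (R₁ + 1)) R₂).ncard : ℝ) ≤ (Y : ℝ) ^ ε)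
    (T : Finset (ℕ × ℕ × ℕ)) (hT : ∀ t ∈ T, Good P R₁ R₂ Y δ t) :
    (T.card : ℝ) ≤ 2 * (Y : ℝ) ^ ε := by
  classical
  have h1 : ((T.filter fun t => Y ^ R₁ ≤ t.2.2).card : ℝ) ≤ (Y : ℝ) ^ ε := by
    refine H1 _ fun t ht => ?_
    obtain ⟨ht1, ht2⟩ := Finset.mem_filter.1 ht
    obtain ⟨⟨a1, a2, a3, a4, a5, a6⟩, -⟩ := hT t ht1
    exact ⟨a1, a2, a3, a4, ht2, a5, a6⟩
  have h2 : ((T.filter fun t => ¬ Y ^ R₁ ≤ t.2.2).card : ℝ) ≤ (Y : ℝ) ^ ε := by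
    refine le_trans ?_ H3
    have h3 : ((T.filter fun t => ¬ Y ^ R₁ ≤ t.2.2) : Set (ℕ × ℕ × ℕ)) ⊆
        Pool.Agent.Y902.FB.Triples (Y ^ (R₁ + 1)) R₂ := by
      intro t ht
      obtain ⟨ht1, ht2⟩ := Finset.mem_filter.1 (Finset.mem_coe.1 ht)
      exact (hT t ht1).2 (not_le.1 ht2)
    have h4 := Set.ncard_le_ncard h3 H2
    rw [Set.ncard_coe_finset] at h4
    exact_mod_cast h4
  have h5 := Finset.card_filter_add_card_filter_not (s := T) (fun t => Y ^ R₁ ≤ t.2.2)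
  have h6 : (T.card : ℝ) = ((T.filter fun t => Y ^ R₁ ≤ t.2.2).card : ℝ) +
      ((T.filter fun t => ¬ Y ^ R₁ ≤ t.2.2).card : ℝ) := by exact_mod_cast h5.symm
  rw [h6]
  linarith

/-- the number of pairs of bases over a triple of values -/
theorem pairs_card (S : Finset (ℕ × ℕ × ℕ × ℕ × ℕ)) (M : ℕ)
    (h : ∀ v ∈ S, (∃ m, 1 ≤ m ∧ m ≤ M ∧ v.1 ^ m = v.2.2.1) ∧ ∃ n, 1 ≤ n ∧ n ≤ M ∧
      v.2.1 ^ n = v.2.2.2.1) : S.card ≤ (S.image fun v => v.2.2).card * ((M + 1) * (M + 1)) := by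
  classical
  choose! m hm1 hm2 hm3 using fun v (hv : v ∈ S) => (h v hv).1
  choose! n hn1 hn2 hn3 using fun v (hv : v ∈ S) => (h v hv).2
  have hinj : Set.InjOn (fun v : ℕ × ℕ × ℕ × ℕ × ℕ => (v.2.2, m v, n v)) (S : Set _) := by
    intro v hv v' hv' heq
    have hv := Finset.mem_coe.1 hv
    have hv' := Finset.mem_coe.1 hv'
    simp only [Prod.mk.injEq] at heq
    obtain ⟨h1, h2, h3⟩ := heq
    have e1 : v.1 = v'.1 := by
      have h4 : v.1 ^ m v = v'.1 ^ m v := by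
        rw [hm3 v hv, h2, hm3 v' hv', h1]
      have := hm1 v hv
      exact (Nat.pow_left_injective (by omega)) h4
    have e2 : v.2.1 = v'.2.1 := by
      have h4 : v.2.1 ^ n v = v'.2.1 ^ n v := by
        rw [hn3 v hv, h3, hn3 v' hv', h1]
      have := hn1 v hv
      exact (Nat.pow_left_injective (by omega)) h4
    exact Prod.ext e1 (Prod.ext e2 h1)
  calc S.card = (S.image fun v => (v.2.2, m v, n v)).card := (Finset.card_image_of_injOn hinj).symm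
    _ ≤ ((S.image fun v => v.2.2) ×ˢ (Finset.range (M + 1) ×ˢ Finset.range (M + 1))).card := by
        refine Finset.card_le_card fun u hu => ?_
        obtain ⟨v, hv, rfl⟩ := Finset.mem_image.1 hu
        refine Finset.mem_product.2 ⟨Finset.mem_image_of_mem _ hv, Finset.mem_product.2
          ⟨Finset.mem_range.2 ?_, Finset.mem_range.2 ?_⟩⟩
        · have := hm2 v hv
          show m v < M + 1
          omega
        · have := hn2 v hv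
          show n v < M + 1
          omega
    _ = _ := by rw [Finset.card_product, Finset.card_product, Finset.card_range]

/-- the exponent of a base -/
theorem expo {a m M : ℕ} {V : ℝ} (ha : 1 ≤ a) (hm : 1 ≤ m) (h : ((a ^ m : ℕ) : ℝ) ≤ Real.exp V)
    (hM : 2 * V ≤ M) (hM1 : 1 ≤ M) : ∃ m', 1 ≤ m' ∧ m' ≤ M ∧ a ^ m' = a ^ m := by
  rcases Nat.lt_or_ge a 2 with h1 | h2
  · have : a = 1 := by omega
    exact ⟨1, le_rfl, hM1, by rw [this, one_pow, one_pow]⟩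
  · refine ⟨m, hm, ?_, rfl⟩
    have h3 : (2 : ℝ) ^ m ≤ Real.exp V := by
      refine le_trans ?_ h
      push_cast
      exact pow_le_pow_left₀ (by norm_num) (by exact_mod_cast h2) _
    have h4 : (m : ℝ) * Real.log 2 ≤ V := by
      rw [← Real.log_pow, ← Real.exp_le_exp, Real.exp_log (by positivity)]
      exact h3
    have h5 : (1 : ℝ) / 2 ≤ Real.log 2 := by
      have := Real.log_two_gt_d9
      linarith
    have h6 : (m : ℝ) * (1 / 2) ≤ (m : ℝ) * Real.log 2 :=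
      mul_le_mul_of_nonneg_left h5 (Nat.cast_nonneg _)
    have h7 : (m : ℝ) ≤ M := by linarith
    exact_mod_cast h7

theorem Generated.symm {P Y a b : ℕ} (h : Generated P Y a b) : Generated P Y b a := by
  obtain ⟨y, e, f, hy, ha, hb⟩ := h
  exact ⟨y, f, e, hy, hb, ha⟩

/-- the number of triples of values -/
theorem values_card {P R R₁ R₂ Y : ℕ} {δ ε : ℝ} (hY : 1 ≤ Y) (hR1 : R₁ ≤ R) (hR2 : R₂ ≤ R)
    (hR3 : 2 ≤ R)
    (H : ∀ T : Finset (ℕ × ℕ × ℕ), (∀ t ∈ T, Good P R₁ R₂ Y δ t) → (T.card : ℝ) ≤ 2 * (Y : ℝ) ^ ε)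
    (W : Finset (ℕ × ℕ × ℕ)) (hW : ∀ w ∈ W, ∃ a b c m n k : ℕ, 1 ≤ a ∧ 1 ≤ b ∧ 1 ≤ c ∧
      Nat.Coprime a b ∧ 2 ≤ m ∧ 2 ≤ n ∧ R ≤ k ∧
      (a ^ m + b ^ n = c ^ k ∨ a ^ m + c ^ k = b ^ n ∨ b ^ n + c ^ k = a ^ m) ∧
      Generated P Y a b ∧ ((a ^ m : ℕ) : ℝ) ≤ Real.exp ((Y : ℝ) ^ δ) ∧
      ((b ^ n : ℕ) : ℝ) ≤ Real.exp ((Y : ℝ) ^ δ) ∧ ((c ^ k : ℕ) : ℝ) ≤ Real.exp ((Y : ℝ) ^ δ) ∧
      w = (a ^ m, b ^ n, c ^ k)) : (W.card : ℝ) ≤ 6 * (Y : ℝ) ^ ε := by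
  classical
  obtain ⟨W1, hW1⟩ : ∃ W1, W1 = W.filter fun w => w.1 + w.2.1 = w.2.2 := ⟨_, rfl⟩
  obtain ⟨W2, hW2⟩ : ∃ W2, W2 = W.filter fun w => w.1 + w.2.2 = w.2.1 := ⟨_, rfl⟩
  obtain ⟨W3, hW3⟩ : ∃ W3, W3 = W.filter fun w => w.2.1 + w.2.2 = w.1 := ⟨_, rfl⟩
  have hsub : W ⊆ W1 ∪ (W2 ∪ W3) := by
    intro w hw
    rw [Finset.mem_union, Finset.mem_union, hW1, hW2, hW3]
    obtain ⟨a, b, c, m, n, k, -, -, -, -, -, -, -, h, -, -, -, -, rfl⟩ := hW w hw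
    rcases h with h | h | h
    · exact Or.inl (Finset.mem_filter.2 ⟨hw, h⟩)
    · exact Or.inr (Or.inl (Finset.mem_filter.2 ⟨hw, h⟩))
    · exact Or.inr (Or.inr (Finset.mem_filter.2 ⟨hw, h⟩))
  have c1 : (W1.card : ℝ) ≤ 2 * (Y : ℝ) ^ ε := by
    refine H W1 fun t ht => ?_
    rw [hW1] at ht
    obtain ⟨hw, heq⟩ := Finset.mem_filter.1 ht
    obtain ⟨a, b, c, m, n, k, ha, hb, hc, hab, hm, hn, hk, -, hg, hA, hB, hC, rfl⟩ := hW t hw
    have heq : a ^ m + b ^ n = c ^ k := heq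
    have hco : Nat.Coprime (a ^ m) (b ^ n) := Nat.Coprime.pow _ _ hab
    refine ⟨⟨by positivity, by positivity, hco, heq, hC, Or.inl (lop hg (hR1.trans hk))⟩,
      fun hs => ?_⟩
    exact small ha hb hc hm hn (hR3.trans hk) (Or.inr (Or.inr (hR2.trans hk))) heq (Or.inl hco) hY hs
  have c2 : (W2.card : ℝ) ≤ 2 * (Y : ℝ) ^ ε := by
    have hinj : Set.InjOn (fun w : ℕ × ℕ × ℕ => (w.1, w.2.2, w.2.1)) (W2 : Set (ℕ × ℕ × ℕ)) := by
      rintro ⟨x, y, z⟩ _ ⟨x', y', z'⟩ _ h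
      simp only [Prod.mk.injEq] at h
      obtain ⟨rfl, rfl, rfl⟩ := h
      rfl
    rw [← Finset.card_image_of_injOn hinj]
    refine H _ fun t ht => ?_
    obtain ⟨w, hw, rfl⟩ := Finset.mem_image.1 ht
    rw [hW2] at hw
    obtain ⟨hw, heq⟩ := Finset.mem_filter.1 hw
    obtain ⟨a, b, c, m, n, k, ha, hb, hc, hab, hm, hn, hk, -, hg, hA, hB, hC, rfl⟩ := hW w hw
    have heq : a ^ m + c ^ k = b ^ n := heq
    have hco : Nat.Coprime (a ^ m) (b ^ n) := Nat.Coprime.pow _ _ hab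
    refine ⟨⟨by positivity, by positivity, (copr heq (Or.inr (Or.inl hco))).1, heq, hB,
      Or.inr (Or.inl (lop hg (hR1.trans hk)))⟩, fun hs => ?_⟩
    exact small ha hc hb hm (hR3.trans hk) hn (Or.inr (Or.inl (hR2.trans hk))) heq
      (Or.inr (Or.inl hco)) hY hs
  have c3 : (W3.card : ℝ) ≤ 2 * (Y : ℝ) ^ ε := by
    have hinj : Set.InjOn (fun w : ℕ × ℕ × ℕ => (w.2.1, w.2.2, w.1)) (W3 : Set (ℕ × ℕ × ℕ)) := by
      rintro ⟨x, y, z⟩ _ ⟨x', y', z'⟩ _ h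
      simp only [Prod.mk.injEq] at h
      obtain ⟨rfl, rfl, rfl⟩ := h
      rfl
    rw [← Finset.card_image_of_injOn hinj]
    refine H _ fun t ht => ?_
    obtain ⟨w, hw, rfl⟩ := Finset.mem_image.1 ht
    rw [hW3] at hw
    obtain ⟨hw, heq⟩ := Finset.mem_filter.1 hw
    obtain ⟨a, b, c, m, n, k, ha, hb, hc, hab, hm, hn, hk, -, hg, hA, hB, hC, rfl⟩ := hW w hw
    have heq : b ^ n + c ^ k = a ^ m := heq
    have hco : Nat.Coprime (b ^ n) (a ^ m) := Nat.Coprime.pow _ _ hab.symm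
    refine ⟨⟨by positivity, by positivity, (copr heq (Or.inr (Or.inl hco))).1, heq, hA,
      Or.inr (Or.inl (lop hg.symm (hR1.trans hk)))⟩, fun hs => ?_⟩
    exact small hb hc ha hn (hR3.trans hk) hm (Or.inr (Or.inl (hR2.trans hk))) heq
      (Or.inr (Or.inl hco)) hY hs
  have h1 : W.card ≤ W1.card + (W2.card + W3.card) :=
    (Finset.card_le_card hsub).trans ((Finset.card_union_le _ _).trans
      (Nat.add_le_add_left (Finset.card_union_le _ _) _))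
  have h2 : (W.card : ℝ) ≤ (W1.card : ℝ) + ((W2.card : ℝ) + (W3.card : ℝ)) := by exact_mod_cast h1
  linarith

/-- **Few pairs of generated bases.** -/
theorem result (P : ℕ) (ε : ℝ) (hε : 0 < ε) : ∃ (R : ℕ) (δ : ℝ) (Y₀ : ℕ), 0 < δ ∧ ∀ Y : ℕ, Y₀ ≤ Y →
    (Sols P R Y (Real.exp ((Y : ℝ) ^ δ))).Finite ∧
      ((Sols P R Y (Real.exp ((Y : ℝ) ^ δ))).ncard : ℝ) ≤ (Y : ℝ) ^ ε := by
  classical
  obtain ⟨R₁, δ₁, hδ₁, H1⟩ := Pool.Agent.N741.HB.abc P 0 (ε / 4) (by positivity)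
  obtain ⟨R₂, Y₂, H2⟩ := Pool.Agent.Y902.FB.main (ε / (4 * (R₁ + 1))) (by positivity)
  obtain ⟨R, hR⟩ : ∃ R, R = max (max R₁ R₂) 2 := ⟨_, rfl⟩
  have hR1 : R₁ ≤ R := by rw [hR]; exact (le_max_left _ _).trans (le_max_left _ _)
  have hR2 : R₂ ≤ R := by rw [hR]; exact (le_max_right _ _).trans (le_max_left _ _)
  have hR4 : 2 ≤ R := by rw [hR]; exact le_max_right _ _
  obtain ⟨δ, hδ⟩ : ∃ δ, δ = min δ₁ (ε / 16) := ⟨_, rfl⟩
  have hδ0 : 0 < δ := by rw [hδ]; exact lt_min hδ₁ (by positivity)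
  have hδ1 : δ ≤ δ₁ := by rw [hδ]; exact min_le_left _ _
  have hδε : δ ≤ ε / 16 := by rw [hδ]; exact min_le_right _ _
  obtain ⟨Y₄, hY₄⟩ : ∃ Y₄ : ℕ, ∀ Y : ℕ, Y₄ ≤ Y → (151 : ℝ) ≤ (Y : ℝ) ^ (ε / 2) := by
    have h1 := ((tendsto_rpow_atTop (show (0 : ℝ) < ε / 2 by positivity)).comp
      (tendsto_natCast_atTop_atTop (R := ℝ))).eventually_ge_atTop (151 : ℝ)
    obtain ⟨Y₄, h3⟩ := Filter.eventually_atTop.1 h1
    exact ⟨Y₄, h3⟩
  refine ⟨R, δ, Y₂ + Y₄ + 1, hδ0, fun Y hY => ?_⟩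
  have hY1 : 1 ≤ Y := by omega
  have hYR : (1 : ℝ) ≤ (Y : ℝ) := by exact_mod_cast hY1
  have hY4 := hY₄ Y (by omega)
  obtain ⟨V, hV⟩ : ∃ V, V = (Y : ℝ) ^ δ := ⟨_, rfl⟩
  have hV1 : 1 ≤ V := by rw [hV]; exact Real.one_le_rpow hYR hδ0.le
  have hFB : (Pool.Agent.Y902.FB.Triples (Y ^ (R₁ + 1)) R₂).Finite ∧
      ((Pool.Agent.Y902.FB.Triples (Y ^ (R₁ + 1)) R₂).ncard : ℝ) ≤ (Y : ℝ) ^ (ε / 4) := by
    have h1 : Y ≤ Y ^ (R₁ + 1) := Nat.le_self_pow (by omega) _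
    obtain ⟨h2, h3⟩ := H2 (Y ^ (R₁ + 1)) (by omega)
    refine ⟨h2, h3.trans (le_of_eq ?_)⟩
    push_cast
    rw [← Real.rpow_natCast, ← Real.rpow_mul (by linarith)]
    congr 1
    have h4 : ((R₁ : ℝ) + 1) ≠ 0 := by positivity
    push_cast
    field_simp
  have hgood : ∀ T : Finset (ℕ × ℕ × ℕ), (∀ t ∈ T, Good P R₁ R₂ Y δ₁ t) →
      (T.card : ℝ) ≤ 2 * (Y : ℝ) ^ (ε / 4) := fun T hT =>
    good_card (H1 Y hY1) hFB.1 hFB.2 T hT
  have hexp : Real.exp ((Y : ℝ) ^ δ) ≤ Real.exp ((Y : ℝ) ^ δ₁) :=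
    Real.exp_le_exp.2 (Real.rpow_le_rpow_of_exponent_le hYR hδ1)
  obtain ⟨A, hA⟩ : ∃ A : Set (ℕ × ℕ × ℕ × ℕ × ℕ), A = {v | ∃ a b c m n k : ℕ, 1 ≤ a ∧ 1 ≤ b ∧
      1 ≤ c ∧ Nat.Coprime a b ∧ 2 ≤ m ∧ 2 ≤ n ∧ R ≤ k ∧
      (a ^ m + b ^ n = c ^ k ∨ a ^ m + c ^ k = b ^ n ∨ b ^ n + c ^ k = a ^ m) ∧
      Generated P Y a b ∧ ((a ^ m : ℕ) : ℝ) ≤ Real.exp ((Y : ℝ) ^ δ) ∧
      ((b ^ n : ℕ) : ℝ) ≤ Real.exp ((Y : ℝ) ^ δ) ∧ ((c ^ k : ℕ) : ℝ) ≤ Real.exp ((Y : ℝ) ^ δ) ∧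
      v = (a, b, a ^ m, b ^ n, c ^ k)} := ⟨_, rfl⟩
  have hAfin : A.Finite ∧ (A.ncard : ℝ) ≤ 150 * (Y : ℝ) ^ (ε / 4 + ε / 8) := by
    refine Pool.Agent.Y902.GN.fin_of_bound A _ fun S hS => ?_
    obtain ⟨M, hM⟩ : ∃ M : ℕ, M = ⌈2 * V⌉₊ := ⟨_, rfl⟩
    have hM1 : 2 * V ≤ M := by rw [hM]; exact Nat.le_ceil _
    have hM2 : (M : ℝ) < 2 * V + 1 := by rw [hM]; exact Nat.ceil_lt_add_one (by linarith)
    have hM3 : 1 ≤ M := by
      have : (1 : ℝ) ≤ M := by linarith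
      exact_mod_cast this
    have h1 := pairs_card S M (fun v hv => by
      have h2 := hS v hv
      rw [hA] at h2
      obtain ⟨a, b, c, m, n, k, ha, hb, hc, hab, hm, hn, hk, -, -, hA', hB', -, rfl⟩ := h2
      rw [← hV] at hA' hB'
      exact ⟨expo ha (by omega) hA' hM1 hM3, expo hb (by omega) hB' hM1 hM3⟩)
    have h2 : ((S.image fun v => v.2.2).card : ℝ) ≤ 6 * (Y : ℝ) ^ (ε / 4) := by
      refine values_card hY1 hR1 hR2 hR4 hgood _ fun w hw => ?_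
      obtain ⟨v, hv, rfl⟩ := Finset.mem_image.1 hw
      have h2 := hS v hv
      rw [hA] at h2
      obtain ⟨a, b, c, m, n, k, ha, hb, hc, hab, hm, hn, hk, he, hg, h3, h4, h5, rfl⟩ := h2
      exact ⟨a, b, c, m, n, k, ha, hb, hc, hab, hm, hn, hk, he, hg, h3.trans hexp, h4.trans hexp,
        h5.trans hexp, rfl⟩
    have h3 : (S.card : ℝ) ≤ ((S.image fun v => v.2.2).card : ℝ) *
        (((M : ℝ) + 1) * ((M : ℝ) + 1)) := by exact_mod_cast h1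
    have h4 : ((M : ℝ) + 1) * ((M : ℝ) + 1) ≤ 25 * (Y : ℝ) ^ (ε / 8) := by
      have h5 : (M : ℝ) + 1 ≤ 4 * V + V := by linarith
      have h5' : (0 : ℝ) ≤ (M : ℝ) + 1 := by positivity
      have h6 : V * V ≤ (Y : ℝ) ^ (ε / 8) := by
        rw [hV, ← Real.rpow_add (by linarith)]
        exact Real.rpow_le_rpow_of_exponent_le hYR (by linarith)
      nlinarith
    have h0 : (0 : ℝ) ≤ (Y : ℝ) ^ (ε / 4) := by positivity
    calc (S.card : ℝ) ≤ ((S.image fun v => v.2.2).card : ℝ) *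
          (((M : ℝ) + 1) * ((M : ℝ) + 1)) := h3
      _ ≤ (6 * (Y : ℝ) ^ (ε / 4)) * (25 * (Y : ℝ) ^ (ε / 8)) :=
          mul_le_mul h2 h4 (by positivity) (by positivity)
      _ = 150 * (Y : ℝ) ^ (ε / 4 + ε / 8) := by
          rw [Real.rpow_add (by linarith)]
          ring
  have hsub : Sols P R Y (Real.exp ((Y : ℝ) ^ δ)) ⊆ A := by
    rintro v hv
    rw [hA]
    exact hv
  refine ⟨hAfin.1.subset hsub, ?_⟩
  have h2 : ((Sols P R Y (Real.exp ((Y : ℝ) ^ δ))).ncard : ℝ) ≤ (A.ncard : ℝ) := by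
    exact_mod_cast Set.ncard_le_ncard hsub hAfin.1
  have h3 : (Y : ℝ) ^ (ε / 4 + ε / 8) ≤ (Y : ℝ) ^ (ε / 2) :=
    Real.rpow_le_rpow_of_exponent_le hYR (by linarith)
  have h4 : (Y : ℝ) ^ ε = (Y : ℝ) ^ (ε / 2) * (Y : ℝ) ^ (ε / 2) := by
    rw [← Real.rpow_add (by linarith)]
    congr 1
    ring
  have h5 := hAfin.2
  rw [h4]
  nlinarith

end Pool.Agent.Results.MP_2738db_nt.GeneratedPairs
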